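import Pool.Agent.ATP.Stmts
import Pool.Agent.Helper20_PP.Rst

/-!
# Squad ATP, row PTR: the pairs of a subgroup which contains `C(Q)`
-/

open scoped BigOperators

noncomputable section

namespace Pool.Agent.PP.TP.H19

open Pool.Agent.Helper51_AWC Pool.Agent.Helper79_WRA Pool.Agent.PP Pool.Agent.PP.KF
open Pool.Agent.PP.K9 Pool.Agent.PP.K9.H97 Pool.Agent.PP.H75 Pool.Agent.PP.T3 Pool.Agent.PP.T2
open Pool.Agent.PP.TB

section

variable {F G : Type} [Field F] [Group G] [Finite G] {K : Subgroup G}

/-- the centraliser of a subgroup of `K` in `K` -/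
theorem cent_map (P : Subgroup K) (t : K) :
    t ∈ Subgroup.centralizer (P : Set K) ↔
      (t : G) ∈ Subgroup.centralizer ((P.map K.subtype : Subgroup G) : Set G) := by
  rw [Subgroup.mem_centralizer_iff, Subgroup.mem_centralizer_iff]
  constructor
  · rintro h _ ⟨p, hp, rfl⟩
    exact congrArg Subtype.val (h p hp)
  · intro h p hp
    exact Subtype.ext (h (p : G) ⟨p, hp, rfl⟩)

theorem cent_map_eq (P : Subgroup K) :
    Subgroup.centralizer (P : Set K) =
      (Subgroup.centralizer ((P.map K.subtype : Subgroup G) : Set G)).subgroupOf K := by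
  ext t
  exact cent_map P t

/-- restriction of a block of `C ≤ K` to `K` -/
theorem bx_res {C : Subgroup G} (hCK : C ≤ K) {b : G → F} (hb : Bx C b) :
    Bx (C.subgroupOf K) (fun t : K => b t) :=
  ⟨fun x hx => hb.supp x hx, H20.IsBlk_equiv (Subgroup.subgroupOfEquivOfLe hCK) hb.blk⟩

theorem bx_ext {C : Subgroup G} (hCK : C ≤ K) {b' : K → F} (hb : Bx (C.subgroupOf K) b') :
    Bx C (H75.ext0 K b') := by
  have hs : ∀ x, x ∉ C → H75.ext0 K b' x = 0 := by
    intro x hx
    by_cases hxK : x ∈ K
    · have := ext0_apply K b' ⟨x, hxK⟩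
      rw [this]
      exact hb.supp _ hx
    · exact ext0_supp K b' x hxK
  refine ⟨hs, ?_⟩
  have h1 := H20.IsBlk_equiv (Subgroup.subgroupOfEquivOfLe hCK).symm hb.blk
  have h2 : (fun t : C => H75.ext0 K b' t) =
      fun t : C => b' (((Subgroup.subgroupOfEquivOfLe hCK).symm t : C.subgroupOf K) : K) := by
    funext t
    exact ext0_apply K b' ⟨(t : G), hCK t.2⟩
  rw [h2]
  exact h1

/-- conjugation and extension by zero -/
theorem cj_ext0 (k : K) (a : K → F) : cj (k : G) (H75.ext0 K a) = H75.ext0 K (cj k a) := by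
  funext x
  by_cases hx : x ∈ K
  · have h1 : (k : G)⁻¹ * x * k = ((k⁻¹ * ⟨x, hx⟩ * k : K) : G) := rfl
    change H75.ext0 K a ((k : G)⁻¹ * x * k) = H75.ext0 K (cj k a) ((⟨x, hx⟩ : K) : G)
    rw [h1, ext0_apply, ext0_apply]
    rfl
  · rw [ext0_supp K _ x hx]
    apply ext0_supp
    intro h
    apply hx
    have h2 := K.mul_mem (K.mul_mem k.2 h) (K.inv_mem k.2)
    have e : (k : G) * ((k : G)⁻¹ * x * k) * (k : G)⁻¹ = x := by group
    rwa [e] at h2

/-- the Brauer map and extension by zero -/
theorem br_ext0 (P : Subgroup K) (a : K → F) :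
    br (P.map K.subtype) (H75.ext0 K a) = H75.ext0 K (br P a) := by
  funext x
  by_cases hx : x ∈ K
  · change br (P.map K.subtype) (H75.ext0 K a) ((⟨x, hx⟩ : K) : G) =
      H75.ext0 K (br P a) ((⟨x, hx⟩ : K) : G)
    rw [ext0_apply]
    unfold br
    by_cases ht : (⟨x, hx⟩ : K) ∈ Subgroup.centralizer (P : Set K)
    · rw [if_pos ht, if_pos ((cent_map P _).1 ht), ext0_apply]
    · rw [if_neg ht, if_neg (fun h => ht ((cent_map P _).2 h))]
  · rw [ext0_supp K _ x hx]
    unfold br
    rw [ext0_supp K a x hx, ite_self]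

end

theorem ptr : PtrStmt := by
  intro ℓ F _ G _ _ K Q hQK hCK b hb
  have hs : ∀ x, x ∉ K → b x = 0 := fun x hx => hb.blk.supp x (fun h => hx (hCK h))
  have hcs : Subgroup.centralizer ((Q.subgroupOf K : Subgroup K) : Set K) =
      (Subgroup.centralizer (Q : Set G)).subgroupOf K := by
    rw [cent_map_eq, Subgroup.subgroupOf_map_subtype, inf_eq_left.2 hQK]
  refine ⟨⟨hb.pg.comap_subtype, ?_⟩, ?_⟩
  · rw [hcs]
    exact bx_res hCK hb.blk
  · intro P' c' hle
    induction hle with
    | refl =>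
      rw [Subgroup.subgroupOf_map_subtype, inf_eq_left.2 hQK, ext0_res K hs]
      exact ⟨hb, Le.refl⟩
    | step R a P c h hR hP hn ih =>
      obtain ⟨ih1, ih2⟩ := ih
      have hQP : Q.subgroupOf K ≤ P := h.sub.trans hn.le
      have hQP' : Q ≤ P.map K.subtype := by
        intro q hq
        exact ⟨⟨q, hQK hq⟩, hQP hq, rfl⟩
      have hCP : Subgroup.centralizer ((P.map K.subtype : Subgroup G) : Set G) ≤ K :=
        (Subgroup.centralizer_le hQP').trans hCK
      have h1 : Pq ℓ (P.map K.subtype) (H75.ext0 K c) := by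
        refine ⟨hP.pg.map K.subtype, bx_ext hCP ?_⟩
        rw [← cent_map_eq]
        exact hP.blk
      have h2 : Nl (R.map K.subtype) (H75.ext0 K a) (P.map K.subtype) (H75.ext0 K c) := by
        refine ⟨Subgroup.map_mono hn.le, ?_, ?_, ?_⟩
        · rintro _ ⟨p, hp, rfl⟩
          have hp' := hn.nor hp
          rw [Subgroup.mem_normalizer_iff] at hp' ⊢
          intro x
          constructor
          · rintro ⟨r, hr, rfl⟩
            exact ⟨p * r * p⁻¹, (hp' r).1 hr, rfl⟩
          · rintro ⟨r, hr, hrx⟩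
            refine ⟨p⁻¹ * r * p, ?_, ?_⟩
            · have h3 := (hp' (p⁻¹ * r * p)).2
              apply h3
              have e : p * (p⁻¹ * r * p) * p⁻¹ = r := by group
              rw [e]
              exact hr
            · have h4 : (r : G) = (p : G) * x * (p : G)⁻¹ := hrx
              change ((p⁻¹ * r * p : K) : G) = x
              push_cast
              rw [h4]
              group
        · rintro _ ⟨p, hp, rfl⟩
          change cj (p : G) (H75.ext0 K a) = H75.ext0 K a
          rw [cj_ext0, hn.inv p hp]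
        · rw [br_ext0, ← ext0_mulF, hn.und]
      exact ⟨h1, Le.step _ _ _ _ ih2 ih1 h1 h2⟩

end Pool.Agent.PP.TP.H19
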